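import Pool.Agent.Lib.MP_f1864b_gt.Defs
import Pool.Agent.Lib.MP_f1864b_gt.WDefs
import Pool.Agent.Lib.MP_f1864b_gt.C1

set_option autoImplicit false
set_option maxSynthPendingDepth 3

/-!
# MP_f1864b_gt, Theorem C: definitions
-/

namespace Pool.Agent.MP_f1864b_gt

open scoped Manifold ContDiff Topology Matrix
open Set Topology Module Pool.Agent.Dold

/-- The signs of the four forms `v i` under the involution. -/
def sgA : Fin 4 → ℝ := ![1, -1, -1, -1]

/-- The signs of the three forms `w j` under the involution. -/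
def sgB : Fin 3 → ℝ := ![1, -1, -1]

/-- The forms are (anti)invariant under the involution `τ`, and generic: all the zeros are regular,
and the zeros over the fixed points of `τ` are the forced ones. -/
structure GenForms {M : Type*} [TopologicalSpace M] [ChartedSpace R5 M] (τ : M → M)
    {V : Type*} [NormedAddCommGroup V] [NormedSpace ℝ V] (s : V →L[ℝ] V) (e : M → V)
    (v : Fin 4 → M → (V →L[ℝ] ℝ)) (w : Fin 3 → M → (V →L[ℝ] ℝ)) : Prop where
  smooth_e : ContMDiff (𝓡 5) 𝓘(ℝ, V) ∞ e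
  smooth_v : ∀ i, ContMDiff (𝓡 5) 𝓘(ℝ, V →L[ℝ] ℝ) ∞ (v i)
  smooth_w : ∀ j, ContMDiff (𝓡 5) 𝓘(ℝ, V →L[ℝ] ℝ) ∞ (w j)
  s_s : ∀ x, s (s x) = x
  e_tau : ∀ p, e (τ p) = s (e p)
  v_tau : ∀ i p, (v i (τ p)).comp s = sgA i • v i p
  w_tau : ∀ j p, (w j (τ p)).comp s = sgB j • w j p
  regular : ∀ p l m, IsZero (𝓡 5) e v w p l m → ∃ c, IsRegularIn (𝓡 5) e v w c p l m
  fixed : ∀ p l m, IsZero (𝓡 5) e v w p l m → τ p = p →
    p ∈ isoFix τ ∧ (∀ i, i ≠ 0 → l i = 0) ∧ (∀ j, j ≠ 0 → m j = 0)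

/-- The parameters of the seven forms. -/
abbrev PP (V : Type*) [NormedAddCommGroup V] [NormedSpace ℝ V] : Type _ :=
  (Fin 4 → Cub V) × (Fin 3 → Cub V)

end Pool.Agent.MP_f1864b_gt
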