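import Pool.Agent.Lib.MP_f1864b_gt.C.Lin
import Pool.Agent.Lib.MP_f1864b_gt.C3G
import Pool.Agent.Lib.MP_f1864b_gt.Form

set_option autoImplicit false
set_option maxSynthPendingDepth 3

/-!
# MP_f1864b_gt, C4: the counts over the fixed points, on the manifold
-/

namespace Pool.Agent.MP_f1864b_gt

open scoped Manifold ContDiff Topology ENNReal
open Set Topology Module Pool.Agent.Dold

variable {M : Type*} [TopologicalSpace M] [ChartedSpace R5 M]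
  {V : Type*} [NormedAddCommGroup V] [NormedSpace ℝ V] [FiniteDimensional ℝ V]

omit [FiniteDimensional ℝ V] in
/-- the differential read in a local parametrisation -/
theorem fderiv_comp_param {g : M → V} (hg : ContMDiff (𝓡 5) 𝓘(ℝ, V) ∞ g) {O : Set R5}
    (hO : IsOpen O) {q : R5 → M} (hq : ContMDiffOn (𝓡 5) (𝓡 5) ∞ q O) {y : R5} (hy : y ∈ O) :
    fderiv ℝ (g ∘ q) y = (mfderiv (𝓡 5) 𝓘(ℝ, V) g (q y) : R5 →L[ℝ] V).comp
      (mfderiv (𝓡 5) (𝓡 5) q y : R5 →L[ℝ] R5) := by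
  rw [← mfderiv_eq_fderiv]
  exact mfderiv_comp y (hg.mdifferentiableAt (by simp))
    ((hq.contMDiffAt (hO.mem_nhds hy)).mdifferentiableAt (by simp))

theorem formL_param {g : M → V} (hg : ContMDiff (𝓡 5) 𝓘(ℝ, V) ∞ g) {O : Set R5}
    (hO : IsOpen O) {q : R5 → M} (hq : ContMDiffOn (𝓡 5) (𝓡 5) ∞ q O) {y : R5} (hy : y ∈ O)
    (ε : ℝ) (s : V →L[ℝ] V) (T : Cub V) :
    formL ε s (g ∘ q) y T = (form (𝓡 5) g (fun x => symL ε s (g x) T) (q y)).comp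
      (mfderiv (𝓡 5) (𝓡 5) q y : R5 →L[ℝ] R5) := by
  rw [formL_apply, fderiv_comp_param hg hO hq hy]
  rfl

theorem sum_smul_comp {n : ℕ} (l : Fin n → ℝ) (F : Fin n → (R5 →L[ℝ] ℝ)) (D : R5 →L[ℝ] R5) :
    ∑ i, l i • (F i).comp D = (∑ i, l i • F i).comp D := by
  ext ξ
  simp only [_root_.sum_apply, _root_.smul_apply, ContinuousLinearMap.comp_apply]

theorem sum_formL_param {n : ℕ} {g : M → V} (hg : ContMDiff (𝓡 5) 𝓘(ℝ, V) ∞ g) {O : Set R5}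
    (hO : IsOpen O) {q : R5 → M} (hq : ContMDiffOn (𝓡 5) (𝓡 5) ∞ q O) {y : R5} (hy : y ∈ O)
    (ε : Fin n → ℝ) (s : V →L[ℝ] V) (a : Fin n → Cub V) (l : Fin n → ℝ)
    (h : form (𝓡 5) g (comb (fun i x => symL (ε i) s (g x) (a i)) l) (q y) = 0) :
    ∑ i, l i • formL (ε i) s (g ∘ q) y (a i) = 0 := by
  rw [form_comb] at h
  have h1 : ∑ i, l i • formL (ε i) s (g ∘ q) y (a i) = ∑ i, l i •
      (form (𝓡 5) g (fun x => symL (ε i) s (g x) (a i)) (q y)).comp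
        (mfderiv (𝓡 5) (𝓡 5) q y : R5 →L[ℝ] R5) :=
    Finset.sum_congr rfl fun i _ =>
      congrArg (fun F : R5 →L[ℝ] ℝ => l i • F) (formL_param hg hO hq hy (ε i) s (a i))
  refine h1.trans ((sum_smul_comp l _ _).trans ?_)
  rw [h]
  exact ContinuousLinearMap.zero_comp _

/-- Near a fixed point of the involution which is not isolated there are generically no zeros. -/
theorem fixed_local [IsManifold (𝓡 5) ∞ M] {τ : M → M} (hτ : ContMDiff (𝓡 5) (𝓡 5) ∞ τ)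
    (hinv : ∀ p, τ (τ p) = p) {g : M → V} (hg : ContMDiff (𝓡 5) 𝓘(ℝ, V) ∞ g)
    (hgi : ∀ x, Function.Injective (mfderiv (𝓡 5) 𝓘(ℝ, V) g x)) {s : V →L[ℝ] V}
    (hgs : ∀ x, g (τ x) = s (g x)) {p : M} (hp : τ p = p)
    (hp1 : dAt τ p ≠ -ContinuousLinearMap.id ℝ R5)
    (hdim : ∀ S : Submodule ℝ R5, (∀ v ∈ S, dAt τ p v = v) → finrank ℝ S ≤ 2) :
    ∃ O' ∈ 𝓝 p, dimH {a : PP V | ∃ x ∈ O', τ x = x ∧ ∃ (l : Fin 4 → ℝ) (m : Fin 3 → ℝ), l ≠ 0 ∧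
      m ≠ 0 ∧ form (𝓡 5) g (comb (fun i x => symL (sgA i) s (g x) (a.1 i)) l) x = 0 ∧
      form (𝓡 5) g (comb (fun i x => symL (sgB i) s (g x) (a.2 i)) m) x = 0} ≤
      ((finrank ℝ (PP V) - 1 : ℕ) : ENNReal) := by
  obtain ⟨O, q, hO, h0, hq0, hq, hqi, hqn, hqd, hLL, hL⟩ := exists_linearised hτ hinv hp
  have hG : ContDiffOn ℝ ∞ (g ∘ q) O := by
    rw [← contMDiffOn_iff_contDiffOn]
    exact hg.comp_contMDiffOn hq
  refine ⟨q '' O, hqn, (dimH_mono ?_).trans (dimH_fixed (s := s) hO hG ?_ hLL ?_ hp1 hdim)⟩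
  · rintro a ⟨x, ⟨y, hy, rfl⟩, hx, l, m, hl, hm, h1, h2⟩
    refine ⟨y, hy, ?_, l, m, hl, hm, sum_formL_param hg hO hq hy sgA s a.1 l h1,
      sum_formL_param hg hO hq hy sgB s a.2 m h2⟩
    have h3 := hL y hy
    exact hqi h3.1 hy (h3.2.symm.trans hx)
  · intro y hy
    rw [fderiv_comp_param hg hO hq hy]
    exact (hgi (q y)).comp (hqd y hy)
  · intro y hy
    refine ⟨(hL y hy).1, ?_⟩
    change s (g (q y)) = g (q _)
    rw [← (hL y hy).2, hgs]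

end Pool.Agent.MP_f1864b_gt
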