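import Pool.Agent.Lib.MP_f1864b_gt.Form
import Pool.Agent.Lib.MP_f1864b_gt.LocReg
import Pool.Agent.Lib.MP_f1864b_gt.C2
import Pool.Agent.Lib.MP_f1864b_gt.C3G
import Pool.Agent.Lib.MP_f1864b_gt.C3H

set_option autoImplicit false
set_option maxSynthPendingDepth 3
set_option linter.unusedSectionVars false

/-!
# MP_f1864b_gt, Theorem C: generic (anti)invariant forms exist
-/

namespace Pool.Agent.MP_f1864b_gt

open scoped Manifold ContDiff Topology Matrix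
open Set Topology Module Pool.Agent.Dold Filter

noncomputable section

/-! ### The symmetrised coefficient functions -/

section Sym

variable {V : Type*} [NormedAddCommGroup V] [NormedSpace ℝ V] [FiniteDimensional ℝ V]

theorem symL_comp_s {s : V →L[ℝ] V} (hs : ∀ x, s (s x) = x) {ε : ℝ} (hε : ε * ε = 1) (x : V)
    (T : Cub V) : (symL ε s (s x) T).comp s = ε • symL ε s x T := by
  rw [symL_apply, symL_apply, hs]
  ext v
  simp only [ContinuousLinearMap.comp_apply, _root_.add_apply, _root_.smul_apply, smul_eq_mul, hs]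
  linear_combination (-(cubL (s x) T (s v))) * hε

theorem exists_ne_zero_cub (hV : ∃ b : V →L[ℝ] ℝ, b ≠ 0) : ∃ T : Cub V, T ≠ 0 := by
  obtain ⟨b, hb⟩ := hV
  obtain ⟨T, hT, -⟩ := exists_cub_jet_aux (0 : V) (ContinuousLinearMap.fst ℝ ℝ V) rfl b 0
  refine ⟨T, ?_⟩
  rintro rfl
  exact hb (by rw [← hT, map_zero])

theorem finrank_PP_pos (hV : ∃ b : V →L[ℝ] ℝ, b ≠ 0) : 0 < finrank ℝ (PP V) := by
  obtain ⟨T, hT⟩ := exists_ne_zero_cub hV
  rw [Module.finrank_pos_iff_exists_ne_zero]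
  exact ⟨(fun _ => T, 0), fun h => hT (congrFun (congrArg Prod.fst h) 0)⟩

end Sym

/-! ### The map `e` in charts -/

section Charts

variable {M : Type*} [TopologicalSpace M] [ChartedSpace R5 M] [IsManifold (𝓡 5) ∞ M]
  {V : Type*} [NormedAddCommGroup V] [NormedSpace ℝ V]

/-- The derivative of `e` in a local parametrisation. -/
theorem fderiv_param {e : M → V} (he : ContMDiff (𝓡 5) 𝓘(ℝ, V) ∞ e) {q : R5 → M} {O : Set R5}
    (hO : IsOpen O) (hq : ContMDiffOn (𝓡 5) (𝓡 5) ∞ q O) {y : R5} (hy : y ∈ O) :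
    fderiv ℝ (e ∘ q) y = (mfderiv (𝓡 5) 𝓘(ℝ, V) e (q y) : R5 →L[ℝ] V).comp
      (mfderiv (𝓡 5) (𝓡 5) q y : R5 →L[ℝ] R5) := by
  have h1 : MDifferentiableAt (𝓡 5) 𝓘(ℝ, V) e (q y) := (he (q y)).mdifferentiableAt (by simp)
  have h2 : MDifferentiableAt (𝓡 5) (𝓡 5) q y :=
    (hq.contMDiffAt (hO.mem_nhds hy)).mdifferentiableAt (by simp)
  rw [← mfderiv_eq_fderiv]
  exact mfderiv_comp y h1 h2

theorem contDiffOn_param {e : M → V} (he : ContMDiff (𝓡 5) 𝓘(ℝ, V) ∞ e) {q : R5 → M} {O : Set R5}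
    (hq : ContMDiffOn (𝓡 5) (𝓡 5) ∞ q O) : ContDiffOn ℝ ∞ (e ∘ q) O := by
  rw [← contMDiffOn_iff_contDiffOn]
  exact he.comp_contMDiffOn hq

theorem isOpen_extTarget (c : M) : IsOpen (extChartAt (𝓡 5) c).target := isOpen_extChartAt_target c

theorem contMDiffOn_extSymm (c : M) :
    ContMDiffOn (𝓡 5) (𝓡 5) ∞ (extChartAt (𝓡 5) c).symm (extChartAt (𝓡 5) c).target :=
  contMDiffOn_extChartAt_symm c

theorem injective_mfderiv_extSymm (c : M) {u : R5} (hu : u ∈ (extChartAt (𝓡 5) c).target) :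
    Function.Injective (mfderiv (𝓡 5) (𝓡 5) (extChartAt (𝓡 5) c).symm u : R5 →L[ℝ] R5) := by
  have h1 : MDifferentiableAt (𝓡 5) (𝓡 5) (extChartAt (𝓡 5) c).symm u :=
    ((contMDiffOn_extSymm c).contMDiffAt
      ((isOpen_extTarget c).mem_nhds hu)).mdifferentiableAt (by simp)
  have h2 : MDifferentiableAt (𝓡 5) (𝓡 5) (extChartAt (𝓡 5) c) ((extChartAt (𝓡 5) c).symm u) := by
    refine (contMDiffAt_extChartAt' (I := 𝓡 5) (n := ∞) ?_).mdifferentiableAt (by simp)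
    rw [← extChartAt_source (𝓡 5)]
    exact (extChartAt (𝓡 5) c).map_target hu
  have h3 := mfderiv_comp u h2 h1
  have h4 : (extChartAt (𝓡 5) c ∘ (extChartAt (𝓡 5) c).symm) =ᶠ[𝓝 u] id := by
    filter_upwards [(isOpen_extTarget c).mem_nhds hu] with z hz
    exact (extChartAt (𝓡 5) c).right_inv hz
  rw [h4.mfderiv_eq, mfderiv_id] at h3
  intro a b hab
  have h5 := congrArg (fun m : R5 →L[ℝ] R5 => m a) h3
  have h6 := congrArg (fun m : R5 →L[ℝ] R5 => m b) h3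
  change a = (mfderiv (𝓡 5) (𝓡 5) (extChartAt (𝓡 5) c) ((extChartAt (𝓡 5) c).symm u) :
    R5 →L[ℝ] R5) ((mfderiv (𝓡 5) (𝓡 5) (extChartAt (𝓡 5) c).symm u : R5 →L[ℝ] R5) a) at h5
  change b = (mfderiv (𝓡 5) (𝓡 5) (extChartAt (𝓡 5) c) ((extChartAt (𝓡 5) c).symm u) :
    R5 →L[ℝ] R5) ((mfderiv (𝓡 5) (𝓡 5) (extChartAt (𝓡 5) c).symm u : R5 →L[ℝ] R5) b) at h6
  rw [h5, h6, hab]

/-- Local parametrisations from open partial homeomorphisms. -/
theorem injective_mfderiv_of_oph {q : OpenPartialHomeomorph R5 M}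
    (hq : ContMDiffOn (𝓡 5) (𝓡 5) ∞ q q.source)
    (hq' : ContMDiffOn (𝓡 5) (𝓡 5) ∞ q.symm q.target) {y : R5} (hy : y ∈ q.source) :
    Function.Injective (mfderiv (𝓡 5) (𝓡 5) q y : R5 →L[ℝ] R5) := by
  have h1 : MDifferentiableAt (𝓡 5) (𝓡 5) q y :=
    (hq.contMDiffAt (q.open_source.mem_nhds hy)).mdifferentiableAt (by simp)
  have h2 : MDifferentiableAt (𝓡 5) (𝓡 5) q.symm (q y) :=
    (hq'.contMDiffAt (q.open_target.mem_nhds (q.map_source hy))).mdifferentiableAt (by simp)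
  have h3 := mfderiv_comp y h2 h1
  have h4 : (q.symm ∘ q) =ᶠ[𝓝 y] id := by
    filter_upwards [q.open_source.mem_nhds hy] with z hz
    exact q.left_inv hz
  rw [h4.mfderiv_eq, mfderiv_id] at h3
  intro a b hab
  have h5 := congrArg (fun m : R5 →L[ℝ] R5 => m a) h3
  have h6 := congrArg (fun m : R5 →L[ℝ] R5 => m b) h3
  change a = (mfderiv (𝓡 5) (𝓡 5) q.symm (q y) : R5 →L[ℝ] R5)
    ((mfderiv (𝓡 5) (𝓡 5) q y : R5 →L[ℝ] R5) a) at h5
  change b = (mfderiv (𝓡 5) (𝓡 5) q.symm (q y) : R5 →L[ℝ] R5)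
    ((mfderiv (𝓡 5) (𝓡 5) q y : R5 →L[ℝ] R5) b) at h6
  rw [h5, h6, hab]

variable [FiniteDimensional ℝ V]

/-- The forms of the family in charts. -/
theorem locForm_symL (e : M → V) (s : V →L[ℝ] V) (ε : ℝ) (T : Cub V) (c : M) (u : R5) :
    locForm (𝓡 5) e (fun p => symL ε s (e p) T) c u =
      formL ε s (e ∘ (extChartAt (𝓡 5) c).symm) u T := by
  rw [formL_apply]
  unfold locForm
  have h : (range (𝓡 5)) = (univ : Set R5) := ModelWithCorners.Boundaryless.range_eq_univ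
  rw [h, fderivWithin_univ]
  rfl

/-- The value of the forms of the family in a parametrisation. -/
theorem form_symL_param {e : M → V} (he : ContMDiff (𝓡 5) 𝓘(ℝ, V) ∞ e) (s : V →L[ℝ] V) (ε : ℝ)
    (T : Cub V) {q : R5 → M} {O : Set R5} (hO : IsOpen O)
    (hq : ContMDiffOn (𝓡 5) (𝓡 5) ∞ q O) {y : R5} (hy : y ∈ O) (ξ : R5) :
    formL ε s (e ∘ q) y T ξ = form (𝓡 5) e (fun p => symL ε s (e p) T) (q y)
      ((mfderiv (𝓡 5) (𝓡 5) q y : R5 →L[ℝ] R5) ξ) := by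
  rw [formL_apply, fderiv_param he hO hq hy]
  rfl

end Charts

/-! ### The family -/

section Family

variable {M : Type*} [TopologicalSpace M] [ChartedSpace R5 M] [IsManifold (𝓡 5) ∞ M]
  {V : Type*} [NormedAddCommGroup V] [NormedSpace ℝ V] [FiniteDimensional ℝ V]

/-- The coefficients of the four forms with parameter `a`. -/
def fv (s : V →L[ℝ] V) (e : M → V) (a : PP V) : Fin 4 → M → (V →L[ℝ] ℝ) :=
  fun i p => symL (sgA i) s (e p) (a.1 i)

/-- The coefficients of the three forms with parameter `a`. -/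
def fw (s : V →L[ℝ] V) (e : M → V) (a : PP V) : Fin 3 → M → (V →L[ℝ] ℝ) :=
  fun j p => symL (sgB j) s (e p) (a.2 j)

theorem contMDiff_symL {e : M → V} (he : ContMDiff (𝓡 5) 𝓘(ℝ, V) ∞ e) (s : V →L[ℝ] V) (ε : ℝ)
    (T : Cub V) : ContMDiff (𝓡 5) 𝓘(ℝ, V →L[ℝ] ℝ) ∞ (fun p => symL ε s (e p) T) := by
  have h1 : ContDiff ℝ ∞ (fun x => symL ε s x T) := (contDiff_symL ε s).clm_apply contDiff_const
  exact h1.contMDiff.comp he

theorem locForm_fv (s : V →L[ℝ] V) (e : M → V) (a : PP V) (l : Fin 4 → ℝ) (c : M) :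
    locForm (𝓡 5) e (comb (fv s e a) l) c =
      fun u => ∑ i, l i • formL (sgA i) s (e ∘ (extChartAt (𝓡 5) c).symm) u (a.1 i) := by
  funext u
  rw [locForm_comb]
  refine Finset.sum_congr rfl fun i _ => ?_
  congr 1
  exact locForm_symL e s (sgA i) (a.1 i) c u

theorem locForm_fw (s : V →L[ℝ] V) (e : M → V) (a : PP V) (m : Fin 3 → ℝ) (c : M) :
    locForm (𝓡 5) e (comb (fw s e a) m) c =
      fun u => ∑ j, m j • formL (sgB j) s (e ∘ (extChartAt (𝓡 5) c).symm) u (a.2 j) := by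
  funext u
  rw [locForm_comb]
  refine Finset.sum_congr rfl fun j _ => ?_
  congr 1
  exact locForm_symL e s (sgB j) (a.2 j) c u

theorem IsZero.ne_zero_left {p q : ℕ} {e : M → V} {v : Fin p → M → (V →L[ℝ] ℝ)}
    {w : Fin q → M → (V →L[ℝ] ℝ)} {x : M} {l : Fin p → ℝ} {m : Fin q → ℝ}
    (h : IsZero (𝓡 5) e v w x l m) : l ≠ 0 := by
  rintro rfl
  have := h.1
  simp at this

theorem IsZero.ne_zero_right {p q : ℕ} {e : M → V} {v : Fin p → M → (V →L[ℝ] ℝ)}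
    {w : Fin q → M → (V →L[ℝ] ℝ)} {x : M} {l : Fin p → ℝ} {m : Fin q → ℝ}
    (h : IsZero (𝓡 5) e v w x l m) : m ≠ 0 := by
  rintro rfl
  have := h.2.1
  simp at this

/-- Regularity in a chart, read on the family. -/
theorem isRegularIn_family {s : V →L[ℝ] V} {e : M → V} {a : PP V} {c x : M}
    (hx : x ∈ (chartAt R5 c).source) {l : Fin 4 → ℝ} {m : Fin 3 → ℝ}
    (h : ∀ f g : R5 →L[ℝ] ℝ, ∃ (ξ : R5) (l' : Fin 4 → ℝ) (m' : Fin 3 → ℝ),
      fderiv ℝ (fun z => ∑ i, l i • formL (sgA i) s (e ∘ (extChartAt (𝓡 5) c).symm) z (a.1 i))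
          (extChartAt (𝓡 5) c x) ξ +
        ∑ i, l' i • formL (sgA i) s (e ∘ (extChartAt (𝓡 5) c).symm) (extChartAt (𝓡 5) c x)
          (a.1 i) = f ∧
      fderiv ℝ (fun z => ∑ j, m j • formL (sgB j) s (e ∘ (extChartAt (𝓡 5) c).symm) z (a.2 j))
          (extChartAt (𝓡 5) c x) ξ +
        ∑ j, m' j • formL (sgB j) s (e ∘ (extChartAt (𝓡 5) c).symm) (extChartAt (𝓡 5) c x)
          (a.2 j) = g) :
    IsRegularIn (𝓡 5) e (fv s e a) (fw s e a) c x l m := by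
  refine ⟨hx, fun f g => ?_⟩
  obtain ⟨ξ, l', m', h1, h2⟩ := h f g
  refine ⟨ξ, l', m', ?_⟩
  have hr : (range (𝓡 5)) = (univ : Set R5) := ModelWithCorners.Boundaryless.range_eq_univ
  unfold dmap
  rw [locForm_fv, locForm_fv, locForm_fw, locForm_fw, hr, fderivWithin_univ, fderivWithin_univ]
  exact Prod.ext h1 h2

/-- The zero equations in a chart. -/
theorem zero_chart {s : V →L[ℝ] V} {e : M → V} (he : ContMDiff (𝓡 5) 𝓘(ℝ, V) ∞ e) {a : PP V}
    {c x : M} (hx : x ∈ (chartAt R5 c).source) {l : Fin 4 → ℝ} {m : Fin 3 → ℝ}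
    (h : IsZero (𝓡 5) e (fv s e a) (fw s e a) x l m) :
    ∑ i, l i • formL (sgA i) s (e ∘ (extChartAt (𝓡 5) c).symm) (extChartAt (𝓡 5) c x)
      (a.1 i) = 0 ∧
    ∑ j, m j • formL (sgB j) s (e ∘ (extChartAt (𝓡 5) c).symm) (extChartAt (𝓡 5) c x)
      (a.2 j) = 0 := by
  obtain ⟨-, -, h1, h2⟩ := h
  have h3 := (locForm_eq_zero_iff (𝓡 5) he (comb (fv s e a) l) c x hx).2 h1
  have h4 := (locForm_eq_zero_iff (𝓡 5) he (comb (fw s e a) m) c x hx).2 h2
  rw [locForm_fv] at h3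
  rw [locForm_fw] at h4
  exact ⟨h3, h4⟩

/-- The zero equations in a parametrisation. -/
theorem zero_param {s : V →L[ℝ] V} {e : M → V} (he : ContMDiff (𝓡 5) 𝓘(ℝ, V) ∞ e) {a : PP V}
    {q : R5 → M} {O : Set R5} (hO : IsOpen O) (hq : ContMDiffOn (𝓡 5) (𝓡 5) ∞ q O) {y : R5}
    (hy : y ∈ O) {l : Fin 4 → ℝ} {m : Fin 3 → ℝ}
    (h : IsZero (𝓡 5) e (fv s e a) (fw s e a) (q y) l m) :
    ∑ i, l i • formL (sgA i) s (e ∘ q) y (a.1 i) = 0 ∧
    ∑ j, m j • formL (sgB j) s (e ∘ q) y (a.2 j) = 0 := by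
  obtain ⟨-, -, h1, h2⟩ := h
  rw [form_comb] at h1 h2
  constructor
  · ext ξ
    have h3 := congrArg (fun c : R5 →L[ℝ] ℝ => c ((mfderiv (𝓡 5) (𝓡 5) q y : R5 →L[ℝ] R5) ξ)) h1
    simp only [_root_.sum_apply, _root_.smul_apply] at h3 ⊢
    refine Eq.trans (Finset.sum_congr rfl fun i _ => ?_) h3
    rw [form_symL_param he s (sgA i) (a.1 i) hO hq hy ξ]
    rfl
  · ext ξ
    have h3 := congrArg (fun c : R5 →L[ℝ] ℝ => c ((mfderiv (𝓡 5) (𝓡 5) q y : R5 →L[ℝ] R5) ξ)) h2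
    simp only [_root_.sum_apply, _root_.smul_apply] at h3 ⊢
    refine Eq.trans (Finset.sum_congr rfl fun i _ => ?_) h3
    rw [form_symL_param he s (sgB i) (a.2 i) hO hq hy ξ]
    rfl

theorem injective_fderiv_chart {e : M → V} (he : ContMDiff (𝓡 5) 𝓘(ℝ, V) ∞ e)
    (hde : ∀ x, Function.Injective (mfderiv (𝓡 5) 𝓘(ℝ, V) e x : R5 →L[ℝ] V)) (c : M) {u : R5}
    (hu : u ∈ (extChartAt (𝓡 5) c).target) :
    Function.Injective (fderiv ℝ (e ∘ (extChartAt (𝓡 5) c).symm) u) := by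
  rw [fderiv_param he (isOpen_extTarget c) (contMDiffOn_extSymm c) hu]
  exact (hde _).comp (injective_mfderiv_extSymm c hu)

/-- The free points in a chart. -/
theorem dimH_free {s : V →L[ℝ] V} {e : M → V} (he : ContMDiff (𝓡 5) 𝓘(ℝ, V) ∞ e)
    (hde : ∀ x, Function.Injective (mfderiv (𝓡 5) 𝓘(ℝ, V) e x : R5 →L[ℝ] V)) (c : M) :
    dimH {a : PP V | ∃ x ∈ (chartAt R5 c).source, s (e x) ≠ e x ∧ ∃ l m,
      IsZero (𝓡 5) e (fv s e a) (fw s e a) x l m ∧
        ¬ IsRegularIn (𝓡 5) e (fv s e a) (fw s e a) c x l m} ≤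
      ((finrank ℝ (PP V) - 1 : ℕ) : ENNReal) := by
  set G : R5 → V := e ∘ (extChartAt (𝓡 5) c).symm with hG
  have hGs : ContDiffOn ℝ ∞ G (extChartAt (𝓡 5) c).target :=
    contDiffOn_param he (contMDiffOn_extSymm c)
  set U : Set R5 := {u | u ∈ (extChartAt (𝓡 5) c).target ∧ s (G u) ≠ G u} with hU
  have hUo : IsOpen U := by
    have h1 : ContinuousOn (fun u => s (G u) - G u) (extChartAt (𝓡 5) c).target :=
      (s.continuous.comp_continuousOn hGs.continuousOn).sub hGs.continuousOn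
    have h2 := h1.isOpen_inter_preimage (isOpen_extTarget c)
      (isOpen_compl_singleton (x := (0 : V)))
    convert h2 using 1
    ext u
    simp [hU, sub_eq_zero]
  have hUt : U ⊆ (extChartAt (𝓡 5) c).target := fun u hu => hu.1
  set P4 : Fin 4 → PP V →L[ℝ] Cub V := fun i =>
    (ContinuousLinearMap.proj (R := ℝ) (φ := fun _ : Fin 4 => Cub V) i).comp
      (ContinuousLinearMap.fst ℝ (Fin 4 → Cub V) (Fin 3 → Cub V)) with hP4
  set P3 : Fin 3 → PP V →L[ℝ] Cub V := fun j =>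
    (ContinuousLinearMap.proj (R := ℝ) (φ := fun _ : Fin 3 => Cub V) j).comp
      (ContinuousLinearMap.snd ℝ (Fin 4 → Cub V) (Fin 3 → Cub V)) with hP3
  have hform : ∀ ε, ContDiffOn ℝ 2 (formL ε s G) U := fun ε =>
    ((contDiffOn_formL ε s (isOpen_extTarget c) hGs).mono hUt).of_le (by norm_cast)
  have key := dimH_irregular (E := R5) (A := PP V) (p := 4) (q := 3) (U := U)
    (θ₀ := fun _ _ => 0) (Θ := fun i u => (formL (sgA i) s G u).comp (P4 i))
    (η₀ := fun _ _ => 0) (Η := fun j u => (formL (sgB j) s G u).comp (P3 j))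
    (by simp) (by simp) (by simp) hUo (fun _ => contDiffOn_const)
    (fun i => (hform _).clm_comp contDiffOn_const) (fun _ => contDiffOn_const)
    (fun j => (hform _).clm_comp contDiffOn_const) (by
      intro u hu f f' g g'
      have hinj := injective_fderiv_chart he hde c hu.1
      choose T hT hT' using fun i : Fin 4 => jets_free (isOpen_extTarget c) hGs hu.1 hinj (sgA i)
        s hu.2 (f i) (f' i)
      choose S hS hS' using fun j : Fin 3 => jets_free (isOpen_extTarget c) hGs hu.1 hinj (sgB j)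
        s hu.2 (g j) (g' j)
      exact ⟨(T, S), hT, hT', hS, hS'⟩)
  refine (dimH_mono ?_).trans key
  rintro a ⟨x, hx, hsx, l, m, hz, hreg⟩
  have hxs : x ∈ (extChartAt (𝓡 5) c).source := by rwa [extChartAt_source]
  have hGx : G (extChartAt (𝓡 5) c x) = e x := by
    rw [hG, Function.comp_apply, (extChartAt (𝓡 5) c).left_inv hxs]
  obtain ⟨hz1, hz2⟩ := zero_chart he hx hz
  refine ⟨extChartAt (𝓡 5) c x, ⟨(extChartAt (𝓡 5) c).map_source hxs, ?_⟩, l, m,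
    hz.ne_zero_left, hz.ne_zero_right, ?_, ?_, fun hall => hreg (isRegularIn_family hx ?_)⟩
  · rw [hGx]
    exact hsx
  · simp only [zero_add]
    exact hz1
  · simp only [zero_add]
    exact hz2
  · simp only [zero_add] at hall
    exact hall

end Family

/-! ### The local statement -/

section Local

variable {M : Type*} [TopologicalSpace M] [ChartedSpace R5 M] [IsManifold (𝓡 5) ∞ M]
  {V : Type*} [NormedAddCommGroup V] [NormedSpace ℝ V]

theorem dAt_dAt {τ : M → M} (hτ : ContMDiff (𝓡 5) (𝓡 5) ∞ τ) (hinv : ∀ p, τ (τ p) = p) {p : M}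
    (hp : τ p = p) (ξ : R5) : dAt τ p (dAt τ p ξ) = ξ := by
  have h1 : MDifferentiableAt (𝓡 5) (𝓡 5) τ (τ p) := (hτ (τ p)).mdifferentiableAt (by simp)
  have h2 : MDifferentiableAt (𝓡 5) (𝓡 5) τ p := (hτ p).mdifferentiableAt (by simp)
  have h3 := mfderiv_comp p h1 h2
  have h4 : τ ∘ τ = id := funext hinv
  rw [h4, mfderiv_id] at h3
  have h5 := congrArg (fun m : R5 →L[ℝ] R5 => m ξ) h3
  have h6 : dAt τ (τ p) = dAt τ p := by rw [hp]
  change ξ = dAt τ (τ p) (dAt τ p ξ) at h5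
  rw [h6] at h5
  exact h5.symm

theorem s_mfderiv {τ : M → M} (hτ : ContMDiff (𝓡 5) (𝓡 5) ∞ τ) {s : V →L[ℝ] V} {e : M → V}
    (he : ContMDiff (𝓡 5) 𝓘(ℝ, V) ∞ e) (heτ : ∀ p, e (τ p) = s (e p)) {p : M} (hp : τ p = p)
    (ξ : R5) : s ((mfderiv (𝓡 5) 𝓘(ℝ, V) e p : R5 →L[ℝ] V) ξ) =
      (mfderiv (𝓡 5) 𝓘(ℝ, V) e p : R5 →L[ℝ] V) (dAt τ p ξ) := by
  have h1 : MDifferentiableAt (𝓡 5) 𝓘(ℝ, V) e (τ p) := (he (τ p)).mdifferentiableAt (by simp)
  have h1' : MDifferentiableAt (𝓡 5) 𝓘(ℝ, V) e p := (he p).mdifferentiableAt (by simp)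
  have h2 : MDifferentiableAt (𝓡 5) (𝓡 5) τ p := (hτ p).mdifferentiableAt (by simp)
  have h3 := mfderiv_comp p h1 h2
  have h4 : e ∘ τ = s ∘ e := funext heτ
  have hs : MDifferentiableAt 𝓘(ℝ, V) 𝓘(ℝ, V) s (e p) :=
    s.differentiableAt.mdifferentiableAt
  have h5 := mfderiv_comp p hs h1'
  rw [h4, h5, s.mfderiv_eq] at h3
  have h6 := congrArg (fun m : R5 →L[ℝ] V => m ξ) h3
  have h7 : (mfderiv (𝓡 5) 𝓘(ℝ, V) e (τ p) : R5 →L[ℝ] V) =
      (mfderiv (𝓡 5) 𝓘(ℝ, V) e p : R5 →L[ℝ] V) := by rw [hp]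
  change s ((mfderiv (𝓡 5) 𝓘(ℝ, V) e p : R5 →L[ℝ] V) ξ) =
    (mfderiv (𝓡 5) 𝓘(ℝ, V) e (τ p) : R5 →L[ℝ] V) (dAt τ p ξ) at h6
  rw [h7] at h6
  exact h6

variable [FiniteDimensional ℝ V] [T2Space M]

/-- The zeros near a point which are not regular, or lie over a fixed point and are not forced. -/
theorem local_bad {τ : M → M} (hτ : ContMDiff (𝓡 5) (𝓡 5) ∞ τ) (hinv : ∀ p, τ (τ p) = p)
    (hdim : ∀ p, τ p = p → ∀ S : Submodule ℝ R5, (∀ v ∈ S, dAt τ p v = v) → finrank ℝ S ≤ 2)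
    {s : V →L[ℝ] V} {e : M → V} (he : ContMDiff (𝓡 5) 𝓘(ℝ, V) ∞ e)
    (hde : ∀ x, Function.Injective (mfderiv (𝓡 5) 𝓘(ℝ, V) e x : R5 →L[ℝ] V))
    (heτ : ∀ p, e (τ p) = s (e p)) (hfree : ∀ p, s (e p) = e p → τ p = p) (p₀ : M) :
    ∃ U ∈ 𝓝 p₀, dimH {a : PP V | ∃ p ∈ U, ∃ l m, IsZero (𝓡 5) e (fv s e a) (fw s e a) p l m ∧
      ¬ ((∃ c, IsRegularIn (𝓡 5) e (fv s e a) (fw s e a) c p l m) ∧
        (τ p = p → p ∈ isoFix τ ∧ (∀ i, i ≠ 0 → l i = 0) ∧ (∀ j, j ≠ 0 → m j = 0)))} ≤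
      ((finrank ℝ (PP V) - 1 : ℕ) : ENNReal) := by
  have hfr := dimH_free (s := s) he hde p₀
  by_cases hp : τ p₀ = p₀
  swap
  · refine ⟨(chartAt R5 p₀).source ∩ {p | τ p ≠ p}, ?_, (dimH_mono ?_).trans hfr⟩
    · exact ((chartAt R5 p₀).open_source.inter (isOpen_ne_fun hτ.continuous
        continuous_id)).mem_nhds ⟨mem_chart_source R5 p₀, hp⟩
    · rintro a ⟨p, ⟨hpc, hpf⟩, l, m, hz, hbad⟩
      exact ⟨p, hpc, fun h => hpf (hfree p h), l, m, hz,
        fun h => hbad ⟨⟨p₀, h⟩, fun h' => absurd h' hpf⟩⟩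
  obtain ⟨q, hq0, hqp, -, hqs, hqs', hqL⟩ := exists_linear_param (E := R5) hτ hinv hp
  have hqL' : ∀ y ∈ q.source, dAt τ p₀ y ∈ q.source ∧ τ (q y) = q (dAt τ p₀ y) := hqL
  have hU : q.target ∩ (chartAt R5 p₀).source ∈ 𝓝 p₀ := by
    refine (q.open_target.inter (chartAt R5 p₀).open_source).mem_nhds ⟨?_, mem_chart_source R5 p₀⟩
    rw [← hqp]
    exact q.map_source hq0
  refine ⟨q.target ∩ (chartAt R5 p₀).source, hU, ?_⟩
  by_cases hiso : dAt τ p₀ = -ContinuousLinearMap.id ℝ R5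
  · -- an isolated fixed point
    have hsD : ∀ D : R5 →L[ℝ] V, D = (mfderiv (𝓡 5) 𝓘(ℝ, V) e p₀ : R5 →L[ℝ] V) →
        ∀ ξ, s (D ξ) = -D ξ := by
      intro D hD ξ
      have h := s_mfderiv hτ he heτ hp ξ
      rw [← hD, hiso] at h
      have h' : s (D ξ) = D ((-ContinuousLinearMap.id ℝ R5) ξ) := h
      exact h'.trans (by simp)
    have hval : (e ∘ (extChartAt (𝓡 5) p₀).symm) (extChartAt (𝓡 5) p₀ p₀) = e p₀ := by
      rw [Function.comp_apply, (extChartAt (𝓡 5) p₀).left_inv (mem_extChartAt_source p₀)]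
    have hder : fderiv ℝ (e ∘ (extChartAt (𝓡 5) p₀).symm) (extChartAt (𝓡 5) p₀ p₀) =
        (mfderiv (𝓡 5) 𝓘(ℝ, V) e p₀ : R5 →L[ℝ] V) := by
      rw [mfderiv_eq_fderivWithin (𝓡 5) p₀ ((he p₀).mdifferentiableAt (by simp))]
      have hr : (range (𝓡 5)) = (univ : Set R5) := ModelWithCorners.Boundaryless.range_eq_univ
      rw [hr, fderivWithin_univ]
    have key := dimH_iso (s := s) (isOpen_extTarget p₀)
      (contDiffOn_param he (contMDiffOn_extSymm p₀))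
      ((extChartAt (𝓡 5) p₀).map_source (mem_extChartAt_source p₀))
      (injective_fderiv_chart he hde p₀
        ((extChartAt (𝓡 5) p₀).map_source (mem_extChartAt_source p₀)))
      (by rw [hval, ← heτ, hp])
      (hsD _ hder)
    refine (dimH_mono ?_).trans ((dimH_union _ _).le.trans (max_le hfr key))
    rintro a ⟨p, ⟨hpq, hpc⟩, l, m, hz, hbad⟩
    by_cases hpf : τ p = p
    · right
      have hpp : p = p₀ := by
        have hy := q.map_target hpq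
        obtain ⟨h1, h2⟩ := hqL' _ hy
        rw [q.right_inv hpq, hpf, hiso] at h2
        rw [hiso] at h1
        have h3 := congrArg q.symm h2
        rw [q.left_inv h1] at h3
        have h4 : q.symm p = 0 := by
          rw [_root_.neg_apply, ContinuousLinearMap.id_apply] at h3
          have h5 : (2 : ℝ) • q.symm p = 0 := by
            rw [two_smul]
            nth_rewrite 1 [h3]
            exact neg_add_cancel _
          exact (smul_eq_zero.1 h5).resolve_left two_ne_zero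
        rw [← q.right_inv hpq, h4, hqp]
      subst hpp
      obtain ⟨hz1, hz2⟩ := zero_chart he (mem_chart_source R5 p) hz
      refine ⟨l, m, hz.ne_zero_left, hz.ne_zero_right, hz1, hz2, fun hgood => hbad ?_⟩
      exact ⟨⟨p, isRegularIn_family (mem_chart_source R5 p) hgood.2.2⟩,
        fun _ => ⟨⟨hp, hiso⟩, hgood.1, hgood.2.1⟩⟩
    · left
      exact ⟨p, hpc, fun h => hpf (hfree p h), l, m, hz,
        fun h => hbad ⟨⟨p₀, h⟩, fun h' => absurd h' hpf⟩⟩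
  · -- a fixed component of positive dimension
    have hsr : ∀ y ∈ q.source, dAt τ p₀ y ∈ q.source ∧
        s ((e ∘ q) y) = (e ∘ q) (dAt τ p₀ y) := by
      intro y hy
      refine ⟨(hqL' y hy).1, ?_⟩
      rw [Function.comp_apply, Function.comp_apply, ← heτ, (hqL' y hy).2]
    have key := dimH_fixed (s := s) (L := dAt τ p₀) q.open_source (contDiffOn_param he hqs)
      (by
        intro y hy
        rw [fderiv_param he q.open_source hqs hy]
        exact (hde _).comp (injective_mfderiv_of_oph hqs hqs' hy))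
      (fun y => dAt_dAt hτ hinv hp y) hsr hiso (hdim p₀ hp)
    refine (dimH_mono ?_).trans ((dimH_union _ _).le.trans (max_le hfr key))
    rintro a ⟨p, ⟨hpq, hpc⟩, l, m, hz, hbad⟩
    by_cases hpf : τ p = p
    · right
      have hy := q.map_target hpq
      have hqy : q (q.symm p) = p := q.right_inv hpq
      obtain ⟨h1, h2⟩ := hqL' _ hy
      rw [hqy, hpf] at h2
      have h3 := congrArg q.symm h2
      rw [q.left_inv h1] at h3
      rw [← hqy] at hz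
      obtain ⟨hz1, hz2⟩ := zero_param he q.open_source hqs hy hz
      exact ⟨q.symm p, hy, h3.symm, l, m, hz.ne_zero_left, hz.ne_zero_right, hz1, hz2⟩
    · left
      exact ⟨p, hpc, fun h => hpf (hfree p h), l, m, hz,
        fun h => hbad ⟨⟨p₀, h⟩, fun h' => absurd h' hpf⟩⟩

end Local

/-! ### Generic forms exist -/

theorem exists_genForms {M : Type*} [TopologicalSpace M] [ChartedSpace R5 M]
    [IsManifold (𝓡 5) ∞ M] [CompactSpace M] [T2Space M] {τ : M → M}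
    (hτ : ContMDiff (𝓡 5) (𝓡 5) ∞ τ) (hinv : ∀ p, τ (τ p) = p)
    (hdim : ∀ p, τ p = p → ∀ S : Submodule ℝ R5, (∀ v ∈ S, dAt τ p v = v) → finrank ℝ S ≤ 2) :
    ∃ (V : Type) (_ : NormedAddCommGroup V) (_ : NormedSpace ℝ V) (_ : FiniteDimensional ℝ V)
      (s : V →L[ℝ] V) (e : M → V) (v : Fin 4 → M → (V →L[ℝ] ℝ)) (w : Fin 3 → M → (V →L[ℝ] ℝ)),
      GenForms τ s e v w := by
  rcases isEmpty_or_nonempty M with hM | ⟨⟨x₀⟩⟩
  · refine ⟨ℝ, inferInstance, inferInstance, inferInstance, ContinuousLinearMap.id ℝ ℝ,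
      fun _ => 0, fun _ _ => 0, fun _ _ => 0, ?_⟩
    exact { smooth_e := contMDiff_const
            smooth_v := fun _ => contMDiff_const
            smooth_w := fun _ => contMDiff_const
            s_s := fun _ => rfl
            e_tau := fun p => (hM.false p).elim
            v_tau := fun _ p => (hM.false p).elim
            w_tau := fun _ p => (hM.false p).elim
            regular := fun p => (hM.false p).elim
            fixed := fun p => (hM.false p).elim }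
  obtain ⟨V₀, _, _, _, e₀, he₀, hinj₀, hde₀⟩ : ∃ (V₀ : Type) (_ : NormedAddCommGroup V₀)
      (_ : NormedSpace ℝ V₀) (_ : FiniteDimensional ℝ V₀) (e₀ : M → V₀),
      ContMDiff (𝓡 5) 𝓘(ℝ, V₀) ∞ e₀ ∧ Function.Injective e₀ ∧
        ∀ x, Function.Injective (mfderiv (𝓡 5) 𝓘(ℝ, V₀) e₀ x : R5 →L[ℝ] V₀) := by
    obtain ⟨n, e₀, he₀, hemb, hde₀⟩ := exists_embedding_euclidean_of_compact (I := 𝓡 5) (M := M)
    exact ⟨EuclideanSpace ℝ (Fin n), inferInstance, inferInstance, inferInstance, e₀, he₀,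
      hemb.injective, hde₀⟩
  set s : V₀ × V₀ →L[ℝ] V₀ × V₀ :=
    (ContinuousLinearMap.snd ℝ V₀ V₀).prod (ContinuousLinearMap.fst ℝ V₀ V₀) with hs
  set e : M → V₀ × V₀ := fun p => (e₀ p, e₀ (τ p)) with he_def
  have he : ContMDiff (𝓡 5) 𝓘(ℝ, V₀ × V₀) ∞ e := he₀.prodMk_space (he₀.comp hτ)
  have heτ : ∀ p, e (τ p) = s (e p) := by
    intro p
    simp [he_def, hs, hinv]
  have hss : ∀ x, s (s x) = x := fun x => by simp [hs]
  have hfree : ∀ p, s (e p) = e p → τ p = p := by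
    intro p h
    have h1 : e₀ (τ p) = e₀ p := congrArg Prod.fst h
    exact hinj₀ h1
  have hde : ∀ x, Function.Injective (mfderiv (𝓡 5) 𝓘(ℝ, V₀ × V₀) e x : R5 →L[ℝ] V₀ × V₀) := by
    intro x a b hab
    have h1 : MDifferentiableAt (𝓡 5) 𝓘(ℝ, V₀ × V₀) e x := (he x).mdifferentiableAt (by simp)
    have h2 : MDifferentiableAt 𝓘(ℝ, V₀ × V₀) 𝓘(ℝ, V₀) (ContinuousLinearMap.fst ℝ V₀ V₀) (e x) :=
      (ContinuousLinearMap.fst ℝ V₀ V₀).differentiableAt.mdifferentiableAt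
    have h3 := mfderiv_comp x h2 h1
    have h4 : (ContinuousLinearMap.fst ℝ V₀ V₀) ∘ e = e₀ := rfl
    rw [h4, (ContinuousLinearMap.fst ℝ V₀ V₀).mfderiv_eq] at h3
    apply hde₀ x
    have h5 := congrArg (fun m : R5 →L[ℝ] V₀ => m a) h3
    have h6 := congrArg (fun m : R5 →L[ℝ] V₀ => m b) h3
    change (mfderiv (𝓡 5) 𝓘(ℝ, V₀) e₀ x : R5 →L[ℝ] V₀) a =
      ((mfderiv (𝓡 5) 𝓘(ℝ, V₀ × V₀) e x : R5 →L[ℝ] V₀ × V₀) a).1 at h5
    change (mfderiv (𝓡 5) 𝓘(ℝ, V₀) e₀ x : R5 →L[ℝ] V₀) b =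
      ((mfderiv (𝓡 5) 𝓘(ℝ, V₀ × V₀) e x : R5 →L[ℝ] V₀ × V₀) b).1 at h6
    rw [h5, h6, hab]
  have hV : ∃ b : V₀ × V₀ →L[ℝ] ℝ, b ≠ 0 := by
    obtain ⟨ξ, hξ⟩ : ∃ ξ : R5, ξ ≠ 0 := exists_ne 0
    obtain ⟨D, hD⟩ : ∃ D : R5 →L[ℝ] V₀ × V₀, Function.Injective D := ⟨_, hde x₀⟩
    have h1 : D ξ ≠ 0 := by
      intro h
      exact hξ (hD (by rw [h, map_zero]))
    obtain ⟨b, hb⟩ := SeparatingDual.exists_eq_one (R := ℝ) h1
    refine ⟨b, ?_⟩
    rintro rfl
    simp at hb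
  choose U hU hbad using fun p => local_bad hτ hinv hdim he hde heτ hfree p
  obtain ⟨t, -, ht⟩ := isCompact_univ.elim_nhds_subcover U fun p _ => hU p
  have hdense := dense_compl_iUnion (A := PP (V₀ × V₀)) (finrank_PP_pos hV)
    (ι := t) (S := fun p => {a : PP (V₀ × V₀) | ∃ p' ∈ U p, ∃ l m,
      IsZero (𝓡 5) e (fv s e a) (fw s e a) p' l m ∧
      ¬ ((∃ c, IsRegularIn (𝓡 5) e (fv s e a) (fw s e a) c p' l m) ∧
        (τ p' = p' → p' ∈ isoFix τ ∧ (∀ i, i ≠ 0 → l i = 0) ∧ (∀ j, j ≠ 0 → m j = 0)))})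
    (fun p => hbad p)
  obtain ⟨a, ha⟩ := hdense.nonempty
  have hgood : ∀ p l m, IsZero (𝓡 5) e (fv s e a) (fw s e a) p l m →
      (∃ c, IsRegularIn (𝓡 5) e (fv s e a) (fw s e a) c p l m) ∧
        (τ p = p → p ∈ isoFix τ ∧ (∀ i, i ≠ 0 → l i = 0) ∧ (∀ j, j ≠ 0 → m j = 0)) := by
    intro p l m hz
    by_contra hnot
    obtain ⟨p', hp't, hp'U⟩ := mem_iUnion₂.1 (ht (mem_univ p))
    exact ha (mem_iUnion.2 ⟨⟨p', hp't⟩, p, hp'U, l, m, hz, hnot⟩)
  refine ⟨V₀ × V₀, inferInstance, inferInstance, inferInstance, s, e, fv s e a, fw s e a, ?_⟩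
  exact { smooth_e := he
          smooth_v := fun i => contMDiff_symL he s _ _
          smooth_w := fun j => contMDiff_symL he s _ _
          s_s := hss
          e_tau := heτ
          v_tau := fun i p => by
            unfold fv
            rw [heτ]
            exact symL_comp_s hss (by fin_cases i <;> simp [sgA]) _ _
          w_tau := fun j p => by
            unfold fw
            rw [heτ]
            exact symL_comp_s hss (by fin_cases j <;> simp [sgB]) _ _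
          regular := fun p l m hz => (hgood p l m hz).1
          fixed := fun p l m hz => (hgood p l m hz).2 }

end

end Pool.Agent.MP_f1864b_gt
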