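import Pool.Agent.Lib.MP_f1864b_gt.C.FixedLocal
import Pool.Agent.Lib.MP_f1864b_gt.C3H

set_option autoImplicit false
set_option maxSynthPendingDepth 3

/-!
# MP_f1864b_gt, C4: the count at an isolated fixed point, on the manifold
-/

namespace Pool.Agent.MP_f1864b_gt

open scoped Manifold ContDiff Topology ENNReal
open Set Topology Module Pool.Agent.Dold

variable {M : Type*} [TopologicalSpace M] [ChartedSpace R5 M]
  {V : Type*} [NormedAddCommGroup V] [NormedSpace ℝ V] [FiniteDimensional ℝ V]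

/-- the forms in a chart -/
theorem locForm_symL (g : M → V) (ε : ℝ) (s : V →L[ℝ] V) (T : Cub V) (c : M) (u : R5) :
    locForm (𝓡 5) g (fun x => symL ε s (g x) T) c u =
      formL ε s (g ∘ (extChartAt (𝓡 5) c).symm) u T := by
  unfold locForm
  rw [formL_apply, ModelWithCorners.range_eq_univ, fderivWithin_univ]
  rfl

theorem locForm_comb_symL {n : ℕ} (g : M → V) (ε : Fin n → ℝ) (s : V →L[ℝ] V)
    (a : Fin n → Cub V) (l : Fin n → ℝ) (c : M) (u : R5) :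
    locForm (𝓡 5) g (comb (fun i x => symL (ε i) s (g x) (a i)) l) c u =
      ∑ i, l i • formL (ε i) s (g ∘ (extChartAt (𝓡 5) c).symm) u (a i) := by
  rw [locForm_comb]
  exact Finset.sum_congr rfl fun i _ => congrArg (fun F : R5 →L[ℝ] ℝ => l i • F)
    (locForm_symL g (ε i) s (a i) c u)

/-- At an isolated fixed point of the involution there is generically only the forced zero, and it
is regular. -/
theorem iso_local [IsManifold (𝓡 5) ∞ M] {τ : M → M} (hτ : ContMDiff (𝓡 5) (𝓡 5) ∞ τ)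
    {g : M → V} (hg : ContMDiff (𝓡 5) 𝓘(ℝ, V) ∞ g)
    (hgi : ∀ x, Function.Injective (mfderiv (𝓡 5) 𝓘(ℝ, V) g x)) {s : V →L[ℝ] V}
    (hgs : ∀ x, g (τ x) = s (g x)) {p : M} (hp : τ p = p)
    (hp1 : dAt τ p = -ContinuousLinearMap.id ℝ R5) :
    dimH {a : PP V | ∃ (l : Fin 4 → ℝ) (m : Fin 3 → ℝ), l ≠ 0 ∧ m ≠ 0 ∧
      form (𝓡 5) g (comb (fun i x => symL (sgA i) s (g x) (a.1 i)) l) p = 0 ∧
      form (𝓡 5) g (comb (fun i x => symL (sgB i) s (g x) (a.2 i)) m) p = 0 ∧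
      ¬ ((∀ i, i ≠ 0 → l i = 0) ∧ (∀ j, j ≠ 0 → m j = 0) ∧
        IsRegularIn (𝓡 5) g (fun i x => symL (sgA i) s (g x) (a.1 i))
          (fun i x => symL (sgB i) s (g x) (a.2 i)) p p l m)} ≤
      ((finrank ℝ (PP V) - 1 : ℕ) : ENNReal) := by
  set G : R5 → V := g ∘ (extChartAt (𝓡 5) p).symm with hGdef
  set O : Set R5 := (extChartAt (𝓡 5) p).target with hOdef
  set y : R5 := extChartAt (𝓡 5) p p with hydef
  have hO : IsOpen O := isOpen_extChartAt_target p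
  have hy : y ∈ O := mem_extChartAt_target p
  have hG : ContDiffOn ℝ ∞ G O := contDiffOn_comp_symm (𝓡 5) hg p
  have hGy : G y = g p := by
    change g ((extChartAt (𝓡 5) p).symm (extChartAt (𝓡 5) p p)) = g p
    rw [(extChartAt (𝓡 5) p).left_inv (mem_extChartAt_source p)]
  have hdG : (mfderiv (𝓡 5) 𝓘(ℝ, V) g p : R5 →L[ℝ] V) = fderiv ℝ G y := by
    rw [mfderiv_eq_fderivWithin (𝓡 5) p (hg.mdifferentiableAt (by simp)),
      ModelWithCorners.range_eq_univ, fderivWithin_univ]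
  have hinj : Function.Injective (fderiv ℝ G y) := by
    rw [← hdG]
    exact hgi p
  have hs : s (G y) = G y := by
    rw [hGy, ← hgs, hp]
  have hsd : ∀ ξ, s (fderiv ℝ G y ξ) = - fderiv ℝ G y ξ := by
    intro ξ
    have h1 : mfderiv (𝓡 5) 𝓘(ℝ, V) (fun x => g (τ x)) p =
        (mfderiv (𝓡 5) 𝓘(ℝ, V) g (τ p)).comp (mfderiv (𝓡 5) (𝓡 5) τ p) :=
      mfderiv_comp p (hg.mdifferentiableAt (by simp)) (hτ.mdifferentiableAt (by simp))
    have h2 : mfderiv (𝓡 5) 𝓘(ℝ, V) (fun x => s (g x)) p =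
        (mfderiv 𝓘(ℝ, V) 𝓘(ℝ, V) s (g p)).comp (mfderiv (𝓡 5) 𝓘(ℝ, V) g p) :=
      mfderiv_comp p s.mdifferentiableAt (hg.mdifferentiableAt (by simp))
    have h3 : (fun x => g (τ x)) = fun x => s (g x) := funext hgs
    rw [h3, h2, ContinuousLinearMap.mfderiv_eq] at h1
    have h4 : ∀ v : R5, s ((mfderiv (𝓡 5) 𝓘(ℝ, V) g p : R5 →L[ℝ] V) v) =
        (mfderiv (𝓡 5) 𝓘(ℝ, V) g (τ p) : R5 →L[ℝ] V) (dAt τ p v) := fun v =>
      congrArg (fun F : R5 →L[ℝ] V => F v) h1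
    have h5 := h4 ξ
    rw [hp1, hdG] at h5
    have h6 : (mfderiv (𝓡 5) 𝓘(ℝ, V) g (τ p) : R5 →L[ℝ] V) = fderiv ℝ G y := by
      rw [← hdG]
      have : ∀ x, x = p → (mfderiv (𝓡 5) 𝓘(ℝ, V) g x : R5 →L[ℝ] V) =
        (mfderiv (𝓡 5) 𝓘(ℝ, V) g p : R5 →L[ℝ] V) := by
        rintro x rfl
        rfl
      exact this _ hp
    rw [h6] at h5
    have h7 : ∀ D : R5 →L[ℝ] V, D ((-ContinuousLinearMap.id ℝ R5) ξ) = - D ξ := fun D => by simp
    exact h5.trans (h7 (fderiv ℝ G y))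
  have hform : ∀ {n : ℕ} (ε : Fin n → ℝ) (a : Fin n → Cub V) (l : Fin n → ℝ),
      form (𝓡 5) g (comb (fun i x => symL (ε i) s (g x) (a i)) l) p =
        ∑ i, l i • formL (ε i) s G y (a i) := by
    intro n ε a l
    rw [form_eq_locForm (𝓡 5) _ p (hg.mdifferentiableAt (by simp))]
    exact locForm_comb_symL g ε s a l p y
  have hloc : ∀ {n : ℕ} (ε : Fin n → ℝ) (a : Fin n → Cub V) (l : Fin n → ℝ),
      locForm (𝓡 5) g (comb (fun i x => symL (ε i) s (g x) (a i)) l) p =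
        fun z => ∑ i, l i • formL (ε i) s G z (a i) := fun ε a l =>
    funext fun z => locForm_comb_symL g ε s a l p z
  refine (dimH_mono ?_).trans (dimH_iso hO hG hy hinj hs hsd)
  rintro a ⟨l, m, hl, hm, h1, h2, h3⟩
  refine ⟨l, m, hl, hm, ?_, ?_, fun h4 => h3 ⟨h4.1, h4.2.1, mem_chart_source R5 p, ?_⟩⟩
  · rw [← hform sgA a.1 l]; exact h1
  · rw [← hform sgB a.2 m]; exact h2
  · intro f f'
    obtain ⟨ξ, l', m', h5, h6⟩ := h4.2.2 f f'
    refine ⟨ξ, l', m', ?_⟩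
    unfold dmap
    rw [ModelWithCorners.range_eq_univ, fderivWithin_univ, fderivWithin_univ]
    refine Prod.ext ?_ ?_
    · rw [← h5]
      simp only [hloc]
      rfl
    · rw [← h6]
      simp only [hloc]
      rfl

end Pool.Agent.MP_f1864b_gt
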