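import Pool.Agent.Lib.MP_f1864b_gt.Defs
import Pool.Agent.Lib.MP_f1864b_gt.C2

set_option autoImplicit false

/-!
# MP_f1864b_gt, C2: linearisation at a fixed point, in the form used in Theorem C
-/

namespace Pool.Agent.MP_f1864b_gt

open scoped Manifold ContDiff Topology
open Set Topology Module Pool.Agent.Dold

theorem exists_linearised {M : Type*} [TopologicalSpace M] [ChartedSpace R5 M]
    [IsManifold (𝓡 5) ∞ M] {τ : M → M} (hτ : ContMDiff (𝓡 5) (𝓡 5) ∞ τ)
    (hinv : ∀ p, τ (τ p) = p) {p : M} (hp : τ p = p) :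
    ∃ (O : Set R5) (q : R5 → M), IsOpen O ∧ 0 ∈ O ∧ q 0 = p ∧
      ContMDiffOn (𝓡 5) (𝓡 5) ∞ q O ∧ InjOn q O ∧ q '' O ∈ 𝓝 p ∧
      (∀ y ∈ O, Function.Injective (mfderiv (𝓡 5) (𝓡 5) q y)) ∧
      (∀ y, dAt τ p (dAt τ p y) = y) ∧
      ∀ y ∈ O, dAt τ p y ∈ O ∧ τ (q y) = q (dAt τ p y) := by
  obtain ⟨q, h0, hq0, -, hq1, hq2, hq3⟩ := exists_linear_param hτ hinv hp
  refine ⟨q.source, q, q.open_source, h0, hq0, hq1, q.injOn, ?_, ?_, ?_, hq3⟩
  · rw [q.image_source_eq_target]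
    exact q.open_target.mem_nhds (hq0 ▸ q.map_source h0)
  · intro y hy
    have h1 : MDifferentiableAt (𝓡 5) (𝓡 5) q y :=
      (hq1.contMDiffAt (q.open_source.mem_nhds hy)).mdifferentiableAt (by simp)
    have h2 : MDifferentiableAt (𝓡 5) (𝓡 5) q.symm (q y) :=
      (hq2.contMDiffAt (q.open_target.mem_nhds (q.map_source hy))).mdifferentiableAt (by simp)
    have h3 : (mfderiv (𝓡 5) (𝓡 5) q.symm (q y)).comp (mfderiv (𝓡 5) (𝓡 5) q y) =
        ContinuousLinearMap.id ℝ (TangentSpace (𝓡 5) y) := by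
      rw [← mfderiv_comp y h2 h1, ← mfderiv_id]
      refine Filter.EventuallyEq.mfderiv_eq ?_
      filter_upwards [q.open_source.mem_nhds hy] with z hz
      exact q.left_inv hz
    intro v w hvw
    have h4 := congrArg (mfderiv (𝓡 5) (𝓡 5) q.symm (q y)) hvw
    have h5 : ∀ u, mfderiv (𝓡 5) (𝓡 5) q.symm (q y) (mfderiv (𝓡 5) (𝓡 5) q y u) = u := fun u =>
      congrArg (fun F : TangentSpace (𝓡 5) y →L[ℝ] TangentSpace (𝓡 5) y => F u) h3
    rw [h5, h5] at h4
    exact h4
  · intro y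
    have hd : MDifferentiableAt (𝓡 5) (𝓡 5) τ p := hτ.mdifferentiableAt (by simp)
    have hpO : chartAt R5 p p ∈ inChartDom (E := R5) τ p := by
      refine ⟨(chartAt R5 p).map_source (mem_chart_source R5 p), ?_⟩
      change τ ((chartAt R5 p).symm (chartAt R5 p p)) ∈ (chartAt R5 p).source
      rw [(chartAt R5 p).left_inv (mem_chart_source R5 p), hp]
      exact mem_chart_source R5 p
    have hO := isOpen_inChartDom (E := R5) hτ.continuous p
    have h1 : dAt τ p = fderiv ℝ (inChart τ p) (chartAt R5 p p) := mfderiv_eq_inChart hd hp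
    rw [h1]
    refine fderiv_involution
      (((contDiffOn_inChart hτ p).contDiffAt (hO.mem_nhds hpO)).differentiableAt (by simp)) ?_ ?_ y
    · unfold inChart
      rw [(chartAt R5 p).left_inv (mem_chart_source R5 p), hp]
    · filter_upwards [hO.mem_nhds hpO] with z hz
      unfold inChart
      rw [(chartAt R5 p).left_inv hz.2, hinv, (chartAt R5 p).right_inv hz.1]

end Pool.Agent.MP_f1864b_gt
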